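import Pool.Agent.V7H41.CC.Spec

/-!
# Partitions with one class of size at least two are convex on every tree
-/

set_option autoImplicit false

open Finset

namespace Pool.Agent.V7H96.CC

open Pool.Agent.V7H41.CC

/-- an inner vertex of a path has at least two neighbours -/
theorem two_le_of_mem_support {V : Type} [Finite V] {G : SimpleGraph V} {u v x : V}
    {p : G.Walk u v} (hp : p.IsPath) (hx : x ∈ p.support) (hu : x ≠ u) (hv : x ≠ v) :
    2 ≤ (G.neighborSet x).ncard := by
  obtain ⟨i, hi, hil⟩ := SimpleGraph.Walk.mem_support_iff_exists_getVert.1 hx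
  have h0 : i ≠ 0 := by
    rintro rfl
    exact hu (by rw [← hi, SimpleGraph.Walk.getVert_zero])
  have h1 : i < p.length := by
    rcases lt_or_eq_of_le hil with h | h
    · exact h
    · exact absurd (by rw [← hi, h, SimpleGraph.Walk.getVert_length]) hv
  have h2 := hp.ncard_neighborSet_toSubgraph_internal_eq_two h0 h1
  rw [hi] at h2
  rw [← h2]
  exact Set.ncard_le_ncard (SimpleGraph.Subgraph.neighborSet_subset _ _) (Set.toFinite _)

/-- the class `A` and singletons -/
noncomputable def part {n : ℕ} (A : Finset (Fin n)) (hA : A.Nonempty) :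
    Finpartition (univ : Finset (Fin n)) :=
  (⊥ : Finpartition (univ \ A)).extend (b := A) hA.ne_empty sdiff_disjoint
    (by rw [Finset.sup_eq_union]; exact sdiff_union_of_subset (subset_univ A))

theorem mem_part {n : ℕ} (A : Finset (Fin n)) (hA : A.Nonempty) (B : Finset (Fin n)) :
    B ∈ (part A hA).parts ↔ B = A ∨ ∃ i, i ∉ A ∧ B = {i} := by
  unfold part
  rw [Finpartition.extend_parts, Finset.mem_insert, Finpartition.parts_bot]
  refine or_congr Iff.rfl ?_
  simp only [Finset.mem_map, Finset.mem_sdiff, Finset.mem_univ, true_and,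
    Function.Embedding.coeFn_mk]
  constructor
  · rintro ⟨i, hi, rfl⟩; exact ⟨i, hi, rfl⟩
  · rintro ⟨i, hi, rfl⟩; exact ⟨i, hi, rfl⟩

theorem card_part {n : ℕ} (A : Finset (Fin n)) (hA : A.Nonempty) :
    (part A hA).parts.card = n - A.card + 1 := by
  unfold part
  rw [Finpartition.card_extend, Finpartition.card_bot, card_sdiff_of_subset (subset_univ A),
    card_univ, Fintype.card_fin]

theorem span_single {n : ℕ} (T : PhyloTree n) (i : Fin n) : T.span {i} = {T.leaf i} := by
  ext v
  constructor
  · rintro ⟨a, ha, b, hb, w, hw, hv⟩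
    rw [Finset.mem_singleton] at ha hb
    subst ha
    subst hb
    rw [SimpleGraph.Walk.isPath_iff_eq_nil] at hw
    subst hw
    simpa using hv
  · rintro rfl
    exact ⟨i, by simp, i, by simp, SimpleGraph.Walk.nil, SimpleGraph.Walk.IsPath.nil, by simp⟩

theorem leaf_notMem {n : ℕ} (T : PhyloTree n) (A : Finset (Fin n)) (i : Fin n) (hi : i ∉ A) :
    T.leaf i ∉ T.span A := by
  rintro ⟨a, ha, b, hb, w, hw, hv⟩
  haveI := T.finite
  have h := two_le_of_mem_support hw hv (fun h => hi (T.leaf_inj h ▸ ha))
    (fun h => hi (T.leaf_inj h ▸ hb))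
  rw [(T.isLeaf (T.leaf i)).1 ⟨i, rfl⟩] at h
  omega

theorem convex_part {n : ℕ} (T : PhyloTree n) (A : Finset (Fin n)) (hA : A.Nonempty) :
    T.Convex (part A hA) := by
  intro B hB C hC hne
  rw [mem_part] at hB hC
  rcases hB with rfl | ⟨i, hi, rfl⟩ <;> rcases hC with rfl | ⟨j, hj, rfl⟩
  · exact absurd rfl hne
  · rw [span_single, Set.disjoint_singleton_right]
    exact leaf_notMem T _ j hj
  · rw [span_single, Set.disjoint_singleton_left]
    exact leaf_notMem T _ i hi
  · rw [span_single, span_single, Set.disjoint_singleton]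
    intro h
    exact hne (by rw [T.leaf_inj h])

/-- (SINGLE) partitions with one non-trivial class are convex on every tree. -/
theorem t_SINGLE : S_SINGLE := by
  intro n m T F hm hmn
  classical
  have hc : n.choose (m + 1) =
      ((powersetCard (m + 1) (univ : Finset (Fin n)) : Finset (Finset (Fin n))) :
        Set (Finset (Fin n))).ncard := by
    rw [Set.ncard_coe_finset, card_powersetCard, card_univ, Fintype.card_fin]
  rw [hc]
  unfold common
  refine Set.ncard_le_ncard_of_injOn
    (fun A => if h : A.Nonempty then part A h else ⊥) ?_ ?_ (Set.toFinite _)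
  · intro A hA
    rw [Finset.mem_coe, mem_powersetCard] at hA
    have hne : A.Nonempty := card_pos.1 (by omega)
    simp only [hne, dif_pos]
    refine ⟨convex_part T A hne, convex_part F A hne, ?_⟩
    rw [card_part, hA.2]
    omega
  · intro A hA B hB h
    rw [Finset.mem_coe, mem_powersetCard] at hA hB
    have hA' : A.Nonempty := card_pos.1 (by omega)
    have hB' : B.Nonempty := card_pos.1 (by omega)
    simp only [hA', hB', dif_pos] at h
    have h1 : A ∈ (part B hB').parts := by
      rw [← h, mem_part]
      exact Or.inl rfl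
    rw [mem_part] at h1
    rcases h1 with h1 | ⟨i, -, h1⟩
    · exact h1
    · have := hA.2
      rw [h1, card_singleton] at this
      omega

end Pool.Agent.V7H96.CC
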